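import Pool.Agent.W975.RR.JbA

/-!
# Part RR-JB: expectation of the mean of the logarithm of the derivative on a circle
-/

set_option autoImplicit false
set_option maxHeartbeats 400000

open Polynomial Filter Topology MeasureTheory

namespace Pool.Agent.W975.RR

open Pool.Agent.W751.CD Pool.Agent.W751.RR

variable {ρ : ℝ}

theorem der_le {n : ℕ} {B : ℝ} (w : ℂ) (hw : ‖w‖ ≤ B) (z : Fin n → ℂ) (hz : ∀ i, ‖z i‖ ≤ ρ) :
    ‖(derivative (P z)).eval w‖ ≤ ∑ i : Fin n, (B + ρ) ^ (Finset.univ.erase i).card := by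
  rw [P_der]
  refine (norm_sum_le _ _).trans (Finset.sum_le_sum fun i _ => ?_)
  rw [norm_prod, ← Finset.prod_const]
  exact Finset.prod_le_prod (fun j _ => norm_nonneg _) fun j _ =>
    (norm_sub_le _ _).trans (add_le_add hw (hz j))

/-- the function on the product -/
noncomputable def H (n : ℕ) (r : ℝ) (q : (Fin n → ℂ) × ℝ) : ℝ := G q.1 (circleMap 0 r q.2)

/-- the measure on the circle -/
noncomputable def nuC : Measure ℝ := volume.restrict (Set.Ioc 0 (2 * Real.pi))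

instance : IsFiniteMeasure nuC := by
  unfold nuC
  infer_instance

theorem nuC_real : nuC.real Set.univ = 2 * Real.pi := by
  unfold nuC
  rw [measureReal_restrict_apply_univ, Real.volume_real_Ioc_of_le Real.two_pi_pos.le]
  ring

theorem H_meas (n : ℕ) (r : ℝ) : Measurable (H n r) := by
  unfold H
  exact (G_meas n).comp (measurable_fst.prodMk ((continuous_circleMap 0 r).measurable.comp measurable_snd))

theorem J_eq {n : ℕ} (z : Fin n → ℂ) (r : ℝ) : J z r = (2 * Real.pi)⁻¹ * ∫ θ, H n r (z, θ) ∂nuC := by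
  unfold J Real.circleAverage
  rw [intervalIntegral.integral_of_le Real.two_pi_pos.le, smul_eq_mul]
  rfl

theorem J_meas (n : ℕ) (r : ℝ) : Measurable (fun z : Fin n → ℂ => J z r) := by
  simp only [J_eq]
  exact ((H_meas n r).stronglyMeasurable.integral_prod_right').measurable.const_mul _

theorem jb_aux (hA : S_POTA) (hρ : 0 < ρ) {B : ℝ} (hB : 0 < B) {CB : ℝ}
    (hCB : ∀ w : ℂ, Integrable (fun z : ℂ => ‖w - z‖⁻¹) (m1 ρ) ∧ ∫ z, ‖w - z‖⁻¹ ∂(m1 ρ) ≤ CB)
    (n : ℕ) (r : ℝ) (hr : 0 < r) (hrB : r ≤ B) :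
    Integrable (fun z : Fin (n + 1) → ℂ => J z r) (mN ρ (n + 1)) ∧
    n * U ρ r - C1 ρ B ≤ ∫ z : Fin (n + 1) → ℂ, J z r ∂(mN ρ (n + 1)) ∧
    ∫ z : Fin (n + 1) → ℂ, J z r ∂(mN ρ (n + 1)) ≤
      n * U ρ r + (Real.log ((n : ℝ) + 1) + 1 + (B + ρ) * CB) := by
  haveI := m1_prob hρ
  haveI := mN_prob hρ (n + 1)
  have hnorm : ∀ θ : ℝ, ‖circleMap 0 r θ‖ = r := fun θ => by
    rw [norm_circleMap_zero, abs_of_pos hr]
  have hfix : ∀ θ : ℝ, Integrable (fun z : Fin (n + 1) → ℂ => H (n + 1) r (z, θ)) (mN ρ (n + 1)) ∧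
      n * U ρ r - C1 ρ B ≤ ∫ z : Fin (n + 1) → ℂ, H (n + 1) r (z, θ) ∂(mN ρ (n + 1)) ∧
      ∫ z : Fin (n + 1) → ℂ, H (n + 1) r (z, θ) ∂(mN ρ (n + 1)) ≤
        n * U ρ r + (Real.log ((n : ℝ) + 1) + 1 + (B + ρ) * CB) := by
    intro θ
    have h := fix_pt hA hρ hB hCB (circleMap 0 r θ) (by rw [hnorm]; exact hrB) n
    rw [hnorm] at h
    exact h
  set M : ℝ := ∑ i : Fin (n + 1), (B + ρ) ^ (Finset.univ.erase i).card with hM
  have habs : ∀ θ : ℝ, ∫ z : Fin (n + 1) → ℂ, ‖H (n + 1) r (z, θ)‖ ∂(mN ρ (n + 1)) ≤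
      2 * M - (n * U ρ r - C1 ρ B) := by
    intro θ
    obtain ⟨h1, h2, _⟩ := hfix θ
    have h3 : ∫ z : Fin (n + 1) → ℂ, ‖H (n + 1) r (z, θ)‖ ∂(mN ρ (n + 1)) ≤
        ∫ z : Fin (n + 1) → ℂ, (2 * M - H (n + 1) r (z, θ)) ∂(mN ρ (n + 1)) := by
      refine integral_mono_ae h1.norm ((integrable_const _).sub h1) ?_
      have hz : ∀ᵐ z ∂(mN ρ (n + 1)), ∀ i, ‖z i‖ ≤ ρ := by
        rw [ae_all_iff]
        intro i
        exact coord_ae hρ m1_le i
      filter_upwards [hz] with z hz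
      have h4 := der_le (B := B) (circleMap 0 r θ) (by rw [hnorm]; exact hrB) z hz
      have h5 : H (n + 1) r (z, θ) ≤ ‖(derivative (P z)).eval (circleMap 0 r θ)‖ :=
        Real.log_le_self (norm_nonneg _)
      have h6 := norm_nonneg ((derivative (P z)).eval (circleMap 0 r θ))
      rw [Real.norm_eq_abs, abs_le]
      constructor <;> linarith
    rw [integral_sub (integrable_const _) h1, integral_const] at h3
    simp only [probReal_univ, smul_eq_mul, one_mul] at h3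
    linarith
  have hint : Integrable (H (n + 1) r) ((mN ρ (n + 1)).prod nuC) := by
    rw [integrable_prod_iff' (H_meas (n + 1) r).aestronglyMeasurable]
    refine ⟨Eventually.of_forall fun θ => (hfix θ).1, ?_⟩
    refine Integrable.of_bound
      ((H_meas (n + 1) r).norm.stronglyMeasurable.integral_prod_left').aestronglyMeasurable
      (2 * M - (n * U ρ r - C1 ρ B)) (Eventually.of_forall fun θ => ?_)
    rw [Real.norm_eq_abs, abs_of_nonneg (integral_nonneg fun _ => norm_nonneg _)]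
    exact habs θ
  have hJi : Integrable (fun z : Fin (n + 1) → ℂ => J z r) (mN ρ (n + 1)) := by
    simp only [J_eq]
    exact hint.integral_prod_left.const_mul _
  have hpi := Real.two_pi_pos
  have hJe : ∫ z : Fin (n + 1) → ℂ, J z r ∂(mN ρ (n + 1)) =
      (2 * Real.pi)⁻¹ * ∫ θ, (∫ z, H (n + 1) r (z, θ) ∂(mN ρ (n + 1))) ∂nuC := by
    simp only [J_eq]
    rw [integral_const_mul, ← integral_prod _ hint, integral_prod_symm _ hint]
  refine ⟨hJi, ?_, ?_⟩
  · rw [hJe]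
    have h1 : ∫ _θ, (n * U ρ r - C1 ρ B) ∂nuC ≤
        ∫ θ, (∫ z, H (n + 1) r (z, θ) ∂(mN ρ (n + 1))) ∂nuC :=
      integral_mono (integrable_const _) hint.integral_prod_right fun θ => (hfix θ).2.1
    rw [integral_const, nuC_real, smul_eq_mul] at h1
    rw [inv_mul_eq_div, le_div_iff₀ hpi]
    linarith
  · rw [hJe]
    have h1 : ∫ θ, (∫ z, H (n + 1) r (z, θ) ∂(mN ρ (n + 1))) ∂nuC ≤
        ∫ _θ, (n * U ρ r + (Real.log ((n : ℝ) + 1) + 1 + (B + ρ) * CB)) ∂nuC :=
      integral_mono hint.integral_prod_right (integrable_const _) fun θ => (hfix θ).2.2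
    rw [integral_const, nuC_real, smul_eq_mul] at h1
    rw [inv_mul_eq_div, div_le_iff₀ hpi]
    linarith

theorem jb : S_JB := by
  intro hA hPB ρ B hρ hB
  obtain ⟨CB, hCB0, hCB⟩ := kernel hPB hρ
  have hC1 : 0 < C1 ρ B := by
    unfold C1
    have hl2 : 0 < Real.log 2 := Real.log_pos (by norm_num)
    have := abs_nonneg (Real.log (2 * (B + ρ)))
    have := abs_nonneg (Real.log ρ)
    linarith
  refine ⟨C1 ρ B + (|Real.log ρ| + |Real.log B|) + 2 + (B + ρ) * CB, by positivity, ?_⟩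
  intro N hN r hr hrB
  obtain ⟨n, rfl⟩ : ∃ n, N = n + 1 := ⟨N - 1, by omega⟩
  obtain ⟨h1, h2, h3⟩ := jb_aux hA hρ hB hCB n r hr hrB
  have hU1 := U_low hρ r
  have hU2 := U_up hρ hrB hr.le
  have h4 := neg_abs_le (Real.log ρ)
  have h5 := abs_nonneg (Real.log B)
  have h6 : 0 < (B + ρ) * CB := by positivity
  refine ⟨J_meas _ r, h1, ?_, ?_⟩
  · push_cast
    linarith
  · push_cast
    linarith

end Pool.Agent.W975.RR
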