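import Pool.Agent.W751.RR.Stm

/-!
# Part RR-JB, first half: a fixed point `w`
-/

set_option autoImplicit false
set_option maxHeartbeats 400000

open Polynomial Filter Topology MeasureTheory

namespace Pool.Agent.W975.RR

open Pool.Agent.W751.CD Pool.Agent.W751.RR

/-! ### The uniform measure on the disc -/

variable {ρ : ℝ}

theorem ball_ne (hρ : 0 < ρ) : volume (Metric.closedBall (0 : ℂ) ρ) ≠ 0 :=
  (Metric.measure_closedBall_pos volume 0 hρ).ne'

theorem ball_top : volume (Metric.closedBall (0 : ℂ) ρ) ≠ ⊤ :=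
  (isCompact_closedBall (0 : ℂ) ρ).measure_lt_top.ne

theorem m1_prob (hρ : 0 < ρ) : IsProbabilityMeasure (m1 ρ) := by
  refine ⟨?_⟩
  unfold m1
  rw [Measure.smul_apply, Measure.restrict_apply_univ, smul_eq_mul]
  exact ENNReal.inv_mul_cancel (ball_ne hρ) ball_top

theorem m1_ac : m1 ρ ≪ (volume : Measure ℂ) := by
  unfold m1
  exact (Measure.AbsolutelyContinuous.rfl.restrict (s := _)).smul_left _ |>.trans
    Measure.restrict_le_self.absolutelyContinuous

theorem m1_pt (a : ℂ) : ∀ᵐ z ∂(m1 ρ), z ≠ a := by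
  have h : (m1 ρ) {a} = 0 := m1_ac (by simp)
  have := measure_eq_zero_iff_ae_notMem.1 h
  filter_upwards [this] with z hz using hz

theorem m1_le : ∀ᵐ z ∂(m1 ρ), ‖z‖ ≤ ρ := by
  unfold m1
  have h1 : ∀ᵐ z ∂(volume.restrict (Metric.closedBall (0 : ℂ) ρ)), ‖z‖ ≤ ρ := by
    filter_upwards [ae_restrict_mem (Metric.isClosed_closedBall.measurableSet)] with z hz
    simpa using hz
  exact Measure.smul_absolutelyContinuous.ae_le h1

/-! ### The potential -/

theorem U_low (hρ : 0 < ρ) (r : ℝ) : Real.log ρ - 1 / 2 ≤ U ρ r := by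
  unfold U
  split_ifs with h
  · have : 0 ≤ r ^ 2 / ρ ^ 2 := by positivity
    linarith
  · have : Real.log ρ ≤ Real.log r := Real.log_le_log hρ (by linarith)
    linarith

theorem U_up {B r : ℝ} (hρ : 0 < ρ) (hr : r ≤ B) (hr0 : 0 ≤ r) :
    U ρ r ≤ |Real.log ρ| + |Real.log B| := by
  unfold U
  split_ifs with h
  · have h1 : r ^ 2 / ρ ^ 2 ≤ 1 := by
      rw [div_le_one (by positivity)]
      exact pow_le_pow_left₀ hr0 h 2
    have h2 := le_abs_self (Real.log ρ)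
    have h3 := abs_nonneg (Real.log B)
    linarith
  · have h1 : Real.log r ≤ Real.log B := Real.log_le_log (by linarith) hr
    have h2 := le_abs_self (Real.log B)
    have h3 := abs_nonneg (Real.log ρ)
    linarith

/-! ### One variable -/

/-- the constant -/
noncomputable def C1 (ρ B : ℝ) : ℝ := Real.log 2 + |Real.log (2 * (B + ρ))| + |Real.log ρ| + 1 / 2

theorem one_var (hA : S_POTA) (hρ : 0 < ρ) {B : ℝ} (hB : 0 < B) (w : ℂ) (hw : ‖w‖ ≤ B) (S : ℂ) :
    Integrable (fun z : ℂ => Real.log ‖1 + (w - z) * S‖) (m1 ρ) ∧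
      -(C1 ρ B) ≤ ∫ z, Real.log ‖1 + (w - z) * S‖ ∂(m1 ρ) := by
  haveI := m1_prob hρ
  have hBρ : 0 < 2 * (B + ρ) := by positivity
  have hl2 : 0 < Real.log 2 := Real.log_pos (by norm_num)
  by_cases hS : S = 0
  · subst hS
    constructor
    · simp
    · simp only [mul_zero, add_zero, norm_one, Real.log_one, integral_zero]
      unfold C1
      have := abs_nonneg (Real.log (2 * (B + ρ)))
      have := abs_nonneg (Real.log ρ)
      linarith
  · have hSn : 0 < ‖S‖ := norm_pos_iff.2 hS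
    obtain ⟨h1, h2⟩ := hA ρ hρ (w + S⁻¹)
    have hae : ∀ᵐ z ∂(m1 ρ), Real.log ‖1 + (w - z) * S‖ =
        Real.log ‖S‖ + Real.log ‖w + S⁻¹ - z‖ := by
      filter_upwards [m1_pt (ρ := ρ) (w + S⁻¹)] with z hz
      have h3 : w + S⁻¹ - z ≠ 0 := fun h => hz (sub_eq_zero.1 h).symm
      have h4 : 1 + (w - z) * S = S * (w + S⁻¹ - z) := by
        field_simp
        ring
      rw [h4, norm_mul, Real.log_mul hSn.ne' (norm_ne_zero_iff.2 h3)]
    have hint : Integrable (fun z : ℂ => Real.log ‖1 + (w - z) * S‖) (m1 ρ) :=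
      ((integrable_const (Real.log ‖S‖)).add h1).congr (hae.mono fun z hz => hz.symm)
    refine ⟨hint, ?_⟩
    by_cases hsm : ‖S‖ ≤ (2 * (B + ρ))⁻¹
    · have h5 : ∫ _z, -(Real.log 2) ∂(m1 ρ) ≤ ∫ z, Real.log ‖1 + (w - z) * S‖ ∂(m1 ρ) := by
        refine integral_mono_ae (integrable_const _) hint ?_
        filter_upwards [m1_le (ρ := ρ)] with z hz
        have h6 : ‖(w - z) * S‖ ≤ 1 / 2 := by
          rw [norm_mul]
          have h7 : ‖w - z‖ ≤ B + ρ := (norm_sub_le _ _).trans (add_le_add hw hz)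
          calc ‖w - z‖ * ‖S‖ ≤ (B + ρ) * (2 * (B + ρ))⁻¹ :=
                mul_le_mul h7 hsm (norm_nonneg _) (by positivity)
            _ = 1 / 2 := by field_simp
        have h8 : 1 / 2 ≤ ‖1 + (w - z) * S‖ := by
          have h9 : ‖(1 : ℂ)‖ ≤ ‖1 + (w - z) * S‖ + ‖(w - z) * S‖ := by
            have := norm_sub_le (1 + (w - z) * S) ((w - z) * S)
            simpa using this
          rw [norm_one] at h9
          linarith
        rw [← Real.log_inv]
        exact Real.log_le_log (by norm_num) (by rw [← one_div]; exact h8)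
      rw [integral_const] at h5
      simp only [probReal_univ, smul_eq_mul, one_mul] at h5
      refine le_trans ?_ h5
      unfold C1
      have := abs_nonneg (Real.log (2 * (B + ρ)))
      have := abs_nonneg (Real.log ρ)
      linarith
    · rw [integral_congr_ae hae, integral_add (integrable_const _) h1, h2, integral_const]
      simp only [probReal_univ, smul_eq_mul, one_mul]
      have h5 : -(Real.log (2 * (B + ρ))) ≤ Real.log ‖S‖ := by
        rw [← Real.log_inv]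
        exact Real.log_le_log (inv_pos.2 hBρ) (le_of_not_ge hsm)
      have h6 := U_low hρ ‖w + S⁻¹‖
      have h7 := le_abs_self (Real.log (2 * (B + ρ)))
      have h8 := neg_abs_le (Real.log ρ)
      unfold C1
      linarith

/-- the kernel `1 / |w - z|` -/
theorem kernel (hB : S_POTB) (hρ : 0 < ρ) : ∃ C : ℝ, 0 < C ∧ ∀ w : ℂ,
    Integrable (fun z : ℂ => ‖w - z‖⁻¹) (m1 ρ) ∧ ∫ z, ‖w - z‖⁻¹ ∂(m1 ρ) ≤ C := by
  obtain ⟨C, hC, h1, _⟩ := hB ρ hρ
  refine ⟨C, hC, fun w => ?_⟩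
  have hm : Measurable fun z : ℂ => ‖w - z‖⁻¹ := (measurable_const.sub measurable_id).norm.inv
  have hnn : ∀ z : ℂ, 0 ≤ ‖w - z‖⁻¹ := fun z => inv_nonneg.2 (norm_nonneg _)
  have hint : Integrable (fun z : ℂ => ‖w - z‖⁻¹) (m1 ρ) := by
    refine ⟨hm.aestronglyMeasurable, ?_⟩
    rw [hasFiniteIntegral_iff_ofReal (Eventually.of_forall hnn)]
    exact (h1 w).trans_lt ENNReal.ofReal_lt_top
  refine ⟨hint, ?_⟩
  rw [integral_eq_lintegral_of_nonneg_ae (Eventually.of_forall hnn) hm.aestronglyMeasurable]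
  exact ENNReal.toReal_le_of_le_ofReal hC.le (h1 w)

/-! ### Several variables -/

theorem mN_prob (hρ : 0 < ρ) (n : ℕ) : IsProbabilityMeasure (mN ρ n) := by
  haveI := m1_prob hρ
  unfold mN
  infer_instance

theorem coord_int (hρ : 0 < ρ) {n : ℕ} {f : ℂ → ℝ} (hf : Integrable f (m1 ρ)) (i : Fin n) :
    Integrable (fun z : Fin n → ℂ => f (z i)) (mN ρ n) := by
  haveI := m1_prob hρ
  exact integrable_comp_eval (μ := fun _ : Fin n => m1 ρ) (i := i) hf

theorem coord_eq (hρ : 0 < ρ) {n : ℕ} {f : ℂ → ℝ} (hf : Integrable f (m1 ρ)) (i : Fin n) :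
    ∫ z : Fin n → ℂ, f (z i) ∂(mN ρ n) = ∫ x, f x ∂(m1 ρ) := by
  haveI := m1_prob hρ
  exact integral_comp_eval (μ := fun _ : Fin n => m1 ρ) (i := i) hf.aestronglyMeasurable

theorem coord_ae (hρ : 0 < ρ) {n : ℕ} {p : ℂ → Prop} (hp : ∀ᵐ x ∂(m1 ρ), p x) (i : Fin n) :
    ∀ᵐ z ∂(mN ρ n), p (z i) := by
  haveI := m1_prob hρ
  exact (Measure.quasiMeasurePreserving_eval (fun _ : Fin n => m1 ρ) i).ae hp

theorem sum_int (hρ : 0 < ρ) {n : ℕ} {f : ℂ → ℝ} (hf : Integrable f (m1 ρ)) :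
    Integrable (fun z : Fin n → ℂ => ∑ i, f (z i)) (mN ρ n) ∧
      ∫ z : Fin n → ℂ, ∑ i, f (z i) ∂(mN ρ n) = n * ∫ x, f x ∂(m1 ρ) := by
  refine ⟨integrable_finsetSum _ fun i _ => coord_int hρ hf i, ?_⟩
  rw [integral_finsetSum _ fun i _ => coord_int hρ hf i]
  simp only [coord_eq hρ hf]
  simp

/-! ### The factorisation -/

theorem P_eval {n : ℕ} (z : Fin n → ℂ) (w : ℂ) : (P z).eval w = ∏ i, (w - z i) := by
  simp [P, eval_prod]

theorem P_der {n : ℕ} (z : Fin n → ℂ) (w : ℂ) :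
    (derivative (P z)).eval w = ∑ i, ∏ j ∈ Finset.univ.erase i, (w - z j) := by
  unfold P
  rw [derivative_prod_finset, eval_finset_sum]
  refine Finset.sum_congr rfl fun i _ => ?_
  simp [eval_prod]

theorem P_der_ne {n : ℕ} (z : Fin n → ℂ) (w : ℂ) (hz : ∀ i, z i ≠ w) :
    (derivative (P z)).eval w = (∏ i, (w - z i)) * ∑ i, (w - z i)⁻¹ := by
  rw [P_der, Finset.mul_sum]
  refine Finset.sum_congr rfl fun i _ => ?_
  have h : w - z i ≠ 0 := sub_ne_zero.2 (hz i).symm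
  rw [← Finset.mul_prod_erase Finset.univ (fun j => w - z j) (Finset.mem_univ i)]
  field_simp

theorem P_succ {n : ℕ} (z : Fin (n + 1) → ℂ) :
    P z = (X - C (z 0)) * P (fun j : Fin n => z j.succ) := by
  unfold P
  rw [Fin.prod_univ_succ]

theorem P_succ_der {n : ℕ} (z : Fin (n + 1) → ℂ) (w : ℂ) (hz : ∀ i : Fin n, z i.succ ≠ w) :
    (derivative (P z)).eval w = (∏ i : Fin n, (w - z i.succ)) *
      (1 + (w - z 0) * ∑ i : Fin n, (w - z i.succ)⁻¹) := by
  rw [P_succ, derivative_mul]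
  simp only [derivative_sub, derivative_X, derivative_C, sub_zero, one_mul, eval_add, eval_mul,
    eval_sub, eval_X, eval_C]
  rw [P_der_ne _ _ hz, P_eval]
  ring

/-- the logarithm of the derivative -/
noncomputable def G {n : ℕ} (z : Fin n → ℂ) (w : ℂ) : ℝ :=
  Real.log ‖(derivative (P z)).eval w‖

theorem G_meas (n : ℕ) : Measurable fun q : (Fin n → ℂ) × ℂ => G q.1 q.2 := by
  unfold G
  simp only [P_der]
  refine Real.measurable_log.comp (Measurable.norm ?_)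
  refine Finset.measurable_sum _ fun i _ => Finset.measurable_prod _ fun j _ => ?_
  exact measurable_snd.sub ((measurable_pi_apply j).comp measurable_fst)

/-- the part depending on the first root -/
noncomputable def L (w : ℂ) {n : ℕ} (q : ℂ × (Fin n → ℂ)) : ℝ :=
  Real.log ‖1 + (w - q.1) * ∑ i, (w - q.2 i)⁻¹‖

theorem S_meas (w : ℂ) (n : ℕ) : Measurable fun z : Fin n → ℂ => ∑ i, (w - z i)⁻¹ :=
  Finset.measurable_sum _ fun i _ => (measurable_const.sub (measurable_pi_apply i)).inv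

theorem L_meas (w : ℂ) (n : ℕ) : Measurable fun q : ℂ × (Fin n → ℂ) => L w q := by
  unfold L
  refine Real.measurable_log.comp (Measurable.norm ?_)
  exact measurable_const.add ((measurable_const.sub measurable_fst).mul
    ((S_meas w n).comp measurable_snd))

theorem log_le_N {N x : ℝ} (hN : 1 ≤ N) (hx : 0 ≤ x) : Real.log (1 + x) ≤ Real.log N + (1 + x) / N := by
  have hN0 : 0 < N := by linarith
  have h1 := Real.add_one_le_exp (Real.log ((1 + x) / N))
  rw [Real.exp_log (by positivity), Real.log_div (by positivity) hN0.ne'] at h1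
  linarith

theorem L_fib (hA : S_POTA) (hρ : 0 < ρ) {B : ℝ} (hB : 0 < B) (w : ℂ) (hw : ‖w‖ ≤ B) {n : ℕ}
    (z : Fin n → ℂ) :
    Integrable (fun x : ℂ => L w (x, z)) (m1 ρ) ∧ -(C1 ρ B) ≤ ∫ x, L w (x, z) ∂(m1 ρ) := by
  unfold L
  exact one_var hA hρ hB w hw (∑ i, (w - z i)⁻¹)

/-- bounds for the part depending on the first root -/
theorem L_bd (hA : S_POTA) (hρ : 0 < ρ) {B : ℝ} (hB : 0 < B) {CB : ℝ}
    (hCB : ∀ w : ℂ, Integrable (fun z : ℂ => ‖w - z‖⁻¹) (m1 ρ) ∧ ∫ z, ‖w - z‖⁻¹ ∂(m1 ρ) ≤ CB)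
    (w : ℂ) (hw : ‖w‖ ≤ B) (n : ℕ) :
    Integrable (fun q : ℂ × (Fin n → ℂ) => L w q) ((m1 ρ).prod (mN ρ n)) ∧
    -(C1 ρ B) ≤ ∫ q, L w q ∂((m1 ρ).prod (mN ρ n)) ∧
    ∫ q, L w q ∂((m1 ρ).prod (mN ρ n)) ≤ Real.log ((n : ℝ) + 1) + 1 + (B + ρ) * CB := by
  haveI := m1_prob hρ
  haveI := mN_prob hρ n
  have hn : (0 : ℝ) ≤ n := Nat.cast_nonneg n
  set T : (Fin n → ℂ) → ℝ := fun z => ∑ i, ‖w - z i‖⁻¹ with hT
  have hTnn : ∀ z, 0 ≤ T z := fun z => Finset.sum_nonneg fun i _ => inv_nonneg.2 (norm_nonneg _)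
  obtain ⟨hTi, hTe⟩ := sum_int hρ (n := n) (hCB w).1
  have hST : ∀ z : Fin n → ℂ, ‖∑ i, (w - z i)⁻¹‖ ≤ T z := fun z =>
    (norm_sum_le _ _).trans (le_of_eq (Finset.sum_congr rfl fun i _ => norm_inv _))
  have hle : ∀ (x : ℂ) (z : Fin n → ℂ), ‖x‖ ≤ ρ →
      ‖1 + (w - x) * ∑ i, (w - z i)⁻¹‖ ≤ 1 + (B + ρ) * T z := by
    intro x z hx
    refine (norm_add_le _ _).trans ?_
    rw [norm_one, norm_mul]
    have h7 : ‖w - x‖ ≤ B + ρ := (norm_sub_le _ _).trans (add_le_add hw hx)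
    have := mul_le_mul h7 (hST z) (norm_nonneg _) (by positivity)
    linarith
  -- absolute value
  have habs : ∀ z : Fin n → ℂ, ∫ x, ‖L w (x, z)‖ ∂(m1 ρ) ≤ 2 * (1 + (B + ρ) * T z) + C1 ρ B := by
    intro z
    obtain ⟨h1, h2⟩ := L_fib hA hρ hB w hw z
    have h3 : ∫ x, ‖L w (x, z)‖ ∂(m1 ρ) ≤
        ∫ x, (2 * (1 + (B + ρ) * T z) - L w (x, z)) ∂(m1 ρ) := by
      refine integral_mono_ae h1.norm ((integrable_const _).sub h1) ?_
      filter_upwards [m1_le (ρ := ρ)] with x hx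
      have h4 := hle x z hx
      have h5 : L w (x, z) ≤ ‖1 + (w - x) * ∑ i, (w - z i)⁻¹‖ := Real.log_le_self (norm_nonneg _)
      have h6 : 0 ≤ (B + ρ) * T z := mul_nonneg (by positivity) (hTnn z)
      rw [Real.norm_eq_abs, abs_le]
      constructor <;> linarith
    rw [integral_sub (integrable_const _) h1, integral_const] at h3
    simp only [probReal_univ, smul_eq_mul, one_mul] at h3
    linarith
  have hint : Integrable (fun q : ℂ × (Fin n → ℂ) => L w q) ((m1 ρ).prod (mN ρ n)) := by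
    rw [integrable_prod_iff' (L_meas w n).aestronglyMeasurable]
    refine ⟨Eventually.of_forall fun z => (L_fib hA hρ hB w hw z).1, ?_⟩
    have hdom : Integrable (fun z : Fin n → ℂ => 2 * (1 + (B + ρ) * T z) + C1 ρ B) (mN ρ n) :=
      ((((integrable_const (1 : ℝ)).add (hTi.const_mul (B + ρ))).const_mul 2).add
        (integrable_const (C1 ρ B)))
    refine Integrable.mono' hdom ?_ (Eventually.of_forall fun z => ?_)
    · exact ((L_meas w n).norm.stronglyMeasurable.integral_prod_left').aestronglyMeasurable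
    · rw [Real.norm_eq_abs, abs_of_nonneg (integral_nonneg fun _ => norm_nonneg _)]
      exact habs z
  refine ⟨hint, ?_, ?_⟩
  · rw [integral_prod_symm _ hint]
    have h1 : ∫ _z, -(C1 ρ B) ∂(mN ρ n) ≤ ∫ z, (∫ x, L w (x, z) ∂(m1 ρ)) ∂(mN ρ n) := by
      refine integral_mono (integrable_const _) hint.integral_prod_right fun z => ?_
      exact (L_fib hA hρ hB w hw z).2
    rw [integral_const] at h1
    simpa using h1
  · have h1 : ∫ q, L w q ∂((m1 ρ).prod (mN ρ n)) ≤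
        ∫ q : ℂ × (Fin n → ℂ), (Real.log ((n : ℝ) + 1) + (1 + (B + ρ) * T q.2) / ((n : ℝ) + 1))
          ∂((m1 ρ).prod (mN ρ n)) := by
      have h2 : Integrable (fun z : Fin n → ℂ =>
          Real.log ((n : ℝ) + 1) + (1 + (B + ρ) * T z) / ((n : ℝ) + 1)) (mN ρ n) :=
        (integrable_const _).add (((integrable_const (1 : ℝ)).add (hTi.const_mul (B + ρ))).div_const _)
      refine integral_mono_ae hint (h2.comp_snd (m1 ρ)) ?_
      have h3 : ∀ᵐ q ∂((m1 ρ).prod (mN ρ n)), ‖q.1‖ ≤ ρ :=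
        Measure.quasiMeasurePreserving_fst.ae (m1_le (ρ := ρ))
      filter_upwards [h3] with q hq
      have h4 := hle q.1 q.2 hq
      have h6 : 0 ≤ (B + ρ) * T q.2 := mul_nonneg (by positivity) (hTnn q.2)
      have h7 := log_le_N (show (1 : ℝ) ≤ (n : ℝ) + 1 by linarith) h6
      refine le_trans ?_ h7
      unfold L
      rcases (norm_nonneg (1 + (w - q.1) * ∑ i, (w - q.2 i)⁻¹)).eq_or_lt with h8 | h8
      · rw [← h8, Real.log_zero]
        exact Real.log_nonneg (by linarith)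
      · exact Real.log_le_log h8 h4
    refine h1.trans ?_
    rw [integral_fun_snd (fun z : Fin n → ℂ =>
      Real.log ((n : ℝ) + 1) + (1 + (B + ρ) * T z) / ((n : ℝ) + 1))]
    simp only [probReal_univ, one_smul]
    have hTi' : Integrable T (mN ρ n) := hTi
    have hi1 : Integrable (fun z : Fin n → ℂ => 1 + (B + ρ) * T z) (mN ρ n) :=
      (integrable_const (1 : ℝ)).add (hTi'.const_mul (B + ρ))
    have hTe' : ∫ z, T z ∂(mN ρ n) = n * ∫ z, ‖w - z‖⁻¹ ∂(m1 ρ) := hTe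
    rw [integral_add (integrable_const _) (hi1.div_const _), integral_div,
      integral_add (integrable_const _) (hTi'.const_mul (B + ρ)),
      integral_const_mul, hTe', integral_const, integral_const]
    simp only [probReal_univ, smul_eq_mul, one_mul]
    have h9 := (hCB w).2
    have h10 : 0 ≤ ∫ z, ‖w - z‖⁻¹ ∂(m1 ρ) := integral_nonneg fun z => inv_nonneg.2 (norm_nonneg _)
    have hB' : 0 ≤ B + ρ := by positivity
    have h11 : (1 + (B + ρ) * (n * ∫ z, ‖w - z‖⁻¹ ∂(m1 ρ))) / ((n : ℝ) + 1) ≤ 1 + (B + ρ) * CB := by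
      rw [div_le_iff₀ (by positivity)]
      have h12 : (B + ρ) * (n * ∫ z, ‖w - z‖⁻¹ ∂(m1 ρ)) ≤ (B + ρ) * (n * CB) := by gcongr
      have h13 : 0 ≤ (B + ρ) * CB := mul_nonneg hB' (h10.trans h9)
      nlinarith
    linarith

/-- **Fixed point.** -/
theorem fix_pt (hA : S_POTA) (hρ : 0 < ρ) {B : ℝ} (hB : 0 < B) {CB : ℝ}
    (hCB : ∀ w : ℂ, Integrable (fun z : ℂ => ‖w - z‖⁻¹) (m1 ρ) ∧ ∫ z, ‖w - z‖⁻¹ ∂(m1 ρ) ≤ CB)
    (w : ℂ) (hw : ‖w‖ ≤ B) (n : ℕ) :
    Integrable (fun z : Fin (n + 1) → ℂ => G z w) (mN ρ (n + 1)) ∧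
    n * U ρ ‖w‖ - C1 ρ B ≤ ∫ z : Fin (n + 1) → ℂ, G z w ∂(mN ρ (n + 1)) ∧
    ∫ z : Fin (n + 1) → ℂ, G z w ∂(mN ρ (n + 1)) ≤
      n * U ρ ‖w‖ + (Real.log ((n : ℝ) + 1) + 1 + (B + ρ) * CB) := by
  haveI := m1_prob hρ
  haveI := mN_prob hρ n
  obtain ⟨hL1, hL2, hL3⟩ := L_bd hA hρ hB hCB w hw n
  obtain ⟨hP1, hP2⟩ := hA ρ hρ w
  obtain ⟨hS1, hS2⟩ := sum_int hρ (n := n) hP1
  set e := MeasurableEquiv.piFinSuccAbove (fun _ : Fin (n + 1) => ℂ) 0 with he
  have hmp : MeasurePreserving e (mN ρ (n + 1)) ((m1 ρ).prod (mN ρ n)) :=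
    measurePreserving_piFinSuccAbove (fun _ : Fin (n + 1) => m1 ρ) 0
  set K : ℂ × (Fin n → ℂ) → ℝ := fun q => (∑ i, Real.log ‖w - q.2 i‖) + L w q with hK
  have hKi : Integrable K ((m1 ρ).prod (mN ρ n)) := (hS1.comp_snd (m1 ρ)).add hL1
  have he1 : ∀ z : Fin (n + 1) → ℂ, (e z).1 = z 0 := fun z => rfl
  have he2 : ∀ (z : Fin (n + 1) → ℂ) (i : Fin n), (e z).2 i = z i.succ := fun z i => by
    simp [he, MeasurableEquiv.piFinSuccAbove, Fin.removeNth, Fin.tail]
  have hae0 : ∀ᵐ q ∂((m1 ρ).prod (mN ρ n)), (∀ i, q.2 i ≠ w) ∧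
      1 + (w - q.1) * ∑ i, (w - q.2 i)⁻¹ ≠ 0 := by
    have h1 : ∀ᵐ q ∂((m1 ρ).prod (mN ρ n)), ∀ i, q.2 i ≠ w := by
      have h2 : ∀ᵐ z ∂(mN ρ n), ∀ i, z i ≠ w := by
        rw [ae_all_iff]
        intro i
        exact coord_ae hρ (m1_pt w) i
      exact Measure.quasiMeasurePreserving_snd.ae h2
    have h3 : ∀ᵐ q ∂((m1 ρ).prod (mN ρ n)), 1 + (w - q.1) * ∑ i, (w - q.2 i)⁻¹ ≠ 0 := by
      have hms : MeasurableSet {q : (Fin n → ℂ) × ℂ | 1 + (w - q.2) * ∑ i, (w - q.1 i)⁻¹ ≠ 0} := by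
        have : Measurable fun q : (Fin n → ℂ) × ℂ => 1 + (w - q.2) * ∑ i, (w - q.1 i)⁻¹ :=
          measurable_const.add ((measurable_const.sub measurable_snd).mul
            ((S_meas w n).comp measurable_fst))
        exact (this (measurableSet_singleton 0)).compl
      have h4 : ∀ᵐ q ∂((mN ρ n).prod (m1 ρ)), 1 + (w - q.2) * ∑ i, (w - q.1 i)⁻¹ ≠ 0 := by
        rw [Measure.ae_prod_iff_ae_ae hms]
        refine Eventually.of_forall fun z => ?_
        filter_upwards [m1_pt (ρ := ρ) (w + (∑ i, (w - z i)⁻¹)⁻¹)] with x hx h5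
        by_cases h6 : ∑ i, (w - z i)⁻¹ = 0
        · rw [h6] at h5; simp at h5
        · apply hx
          have h7 : (x - w) * ∑ i, (w - z i)⁻¹ = 1 := by linear_combination -h5
          have h8 : x - w = (∑ i, (w - z i)⁻¹)⁻¹ := eq_inv_of_mul_eq_one_left h7
          linear_combination h8
      have h9 : MeasurePreserving (Prod.swap : ℂ × (Fin n → ℂ) → (Fin n → ℂ) × ℂ)
          ((m1 ρ).prod (mN ρ n)) ((mN ρ n).prod (m1 ρ)) := Measure.measurePreserving_swap
      exact h9.quasiMeasurePreserving.ae h4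
    exact h1.and h3
  have hae : ∀ᵐ z ∂(mN ρ (n + 1)), K (e z) = G z w := by
    filter_upwards [hmp.quasiMeasurePreserving.ae hae0] with z hz
    obtain ⟨h1, h2⟩ := hz
    simp only [he1, he2] at h1 h2
    simp only [hK, L, he1, he2, G]
    rw [P_succ_der z w h1, norm_mul, norm_prod]
    rw [Real.log_mul, Real.log_prod]
    · intro i _
      exact norm_ne_zero_iff.2 (sub_ne_zero.2 (h1 i).symm)
    · exact Finset.prod_ne_zero_iff.2 fun i _ => norm_ne_zero_iff.2 (sub_ne_zero.2 (h1 i).symm)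
    · exact norm_ne_zero_iff.2 h2
  have hGi : Integrable (fun z : Fin (n + 1) → ℂ => G z w) (mN ρ (n + 1)) :=
    ((hmp.integrable_comp_emb e.measurableEmbedding).2 hKi).congr hae
  have hGe : ∫ z : Fin (n + 1) → ℂ, G z w ∂(mN ρ (n + 1)) =
      n * U ρ ‖w‖ + ∫ q, L w q ∂((m1 ρ).prod (mN ρ n)) := by
    rw [← integral_congr_ae hae, hmp.integral_comp e.measurableEmbedding K, hK,
      integral_add (hS1.comp_snd (m1 ρ)) hL1,
      integral_fun_snd (fun z : Fin n → ℂ => ∑ i, Real.log ‖w - z i‖), hS2, hP2]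
    simp
  refine ⟨hGi, ?_, ?_⟩ <;> rw [hGe] <;> linarith

end Pool.Agent.W975.RR
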